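import Pool.Agent.V1153.LV.Sp

/-!
# The degrees of sparse maps, and of maps of bounded complexity, from curves of genus zero

Let `X` be the complement of a hypersurface `Q = 0` in a projective variety over the complex numbers
(all affine and all projective varieties are of this form). We consider the nonconstant maps to `X`
from the affine line without points `a_1, ..., a_d`, that is, from the affine curves of genus zero
with at most `d + 1` points at infinity, `χ = d - 1` if these points are distinct.

`Sparse`: the homogeneous coordinates of the map are sums of `r` products of a polynomial of degree
at most `e` and of powers of the functions `z - a_l` with arbitrary integer exponents; the degrees of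
such maps are not bounded.

`LineMap`, `Bdd`: maps of complexity at most `(s, r, e, d)`: on some open set the homogeneous
coordinates, and `1 / Q` of them, up to a common factor, are polynomials of degree at most `e` in each
of the functions `z`, `1 / q(z)` and the entries of the solutions `y_1, ..., y_s` of iterated systems
of `r` linear differential equations, where `q` is a polynomial of degree at most `d`; the number of
points at infinity is arbitrary.

We show that if `X` is of log general type, then for given parameters there are a proper closed
subset `G = 0` of `X` and a number `N` such that all these maps which are not contained in `G = 0` have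
degree at most `N` (`MapDegLe`: they are given by polynomials of degree at most `N` without common
zeros). Each of these properties, even for `d = 1` and `e = 0` only, holds if and only if `X` is not
covered by curves of the punctured line. The bound is uniform: if `G = 0` contains the curves of the
punctured line of degree at most `N` in `X`, where `N` depends only on the parameters, the dimension of
the projective space and the degrees of the equations and of `Q` and `G`, then all sparse maps not
contained in `G = 0` have degree at most `N`.
-/

set_option autoImplicit false

namespace Pool.Agent.Results.MP_70ba79_ag.SparseDegreeBound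

open MvPolynomial Pool.Agent.V1153.UG Pool.Agent.V1153.LV
open Pool.Agent.TH143.GT (FunField)
open Pool.Agent.W602.GT (LogGeneralType)
open Pool.Agent.W603.GR (OffQ)

/-- **(1)** For all `n, D, r, e, d` there is `N` such that for all `X`, the complement of `Q = 0` in the
projective variety with the equations `E`, and all forms `G`, all degrees being at most `D`: if `G`
vanishes on the images of all nonconstant maps of degree at most `N` from the punctured line to `X`,
then all nonconstant sparse maps with the parameters `(r, e)` from the affine line without `d` points
to `X` which are not contained in `G = 0` have degree at most `N`. **(2)** For an integral `X` the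
following are equivalent: `X` is not covered by curves of the punctured line; for all `(s, r, e, d)`
the degrees of the maps of complexity `(s, r, e, d)` to `X`, not contained in some proper closed
subset, are bounded; this holds for all sparse maps with parameters `(r, e)` from the affine line
without `d` points, for all `r, e, d`; this holds for `e = 0`, `d = 1` and all `r`. **(3)** These
properties hold if `X` is of log general type. -/
theorem result (n : ℕ) :
    (∀ D r e d : ℕ, ∃ N : ℕ, ∀ (E : Set (MvPolynomial (Fin (n + 1)) ℂ))
      (Q G : MvPolynomial (Fin (n + 1)) ℂ), (∀ F ∈ E, ∃ a ≤ D, F.IsHomogeneous a) →
        (∃ a ≤ D, Q.IsHomogeneous a) → (∃ a ≤ D, G.IsHomogeneous a) →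
        VanGm (Ideal.span E) Q N G → ∀ (a : Fin d → ℂ) (h : ℂ → Fin (n + 1) → ℂ),
          Sparse (Ideal.span E) Q r e a h → (∀ z ∈ offP a, eval (h z) G = 0) ∨
            MapDegLe N (offP a) h) ∧
    ∀ (I : Ideal (MvPolynomial (Fin (n + 1)) ℂ)), I.IsPrime →
      ∀ (Q : MvPolynomial (Fin (n + 1)) ℂ) (q : ℕ), Q.IsHomogeneous q →
        List.TFAE [¬ GmRuled I Q, ∀ s r e d, LineBound I Q s r e d,
          ∀ r e d, SparseBound I Q r e d, ∀ r, SparseBound I Q r 0 1] ∧
        ∀ (K : Type) [Field K] [Algebra ℂ K] (w : ℕ) (y : Fin (n + 1) → K),
          FunField I Q K w y → LogGeneralType ℂ K w (OffQ Q q y) → ¬ GmRuled I Q :=
  ⟨fun D r e d => sparse_deg n D r e d, fun _ hI _ _ hQ => ⟨sparse_tfae hI hQ,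
    fun _ _ _ _ _ hy hL => not_ruled_of_lgt hQ hy hL⟩⟩

end Pool.Agent.Results.MP_70ba79_ag.SparseDegreeBound
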